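import Pool.Agent.H88.MCR.Stmts

/-!
Row TRF of board mcr: transfer of a diagram to generic real points.
-/

set_option autoImplicit false

namespace Pool.MCR

theorem trf_arcs_mem {L : Type} (l : List L) : ∀ (s t : Bool) (a b : L), (t, a, b) ∈ arcs s l →
    a ∈ l ∧ b ∈ l := by
  induction l with
  | nil =>
    intro s t a b h
    simp [arcs] at h
  | cons c l ih =>
    intro s t a b h
    cases l with
    | nil => simp [arcs] at h
    | cons d l =>
      rw [arcs, List.mem_cons] at h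
      rcases h with h | h
      · simp only [Prod.mk.injEq] at h
        obtain ⟨-, rfl, rfl⟩ := h
        exact ⟨by simp, by simp⟩
      · have h1 := ih (!s) t a b h
        exact ⟨List.mem_cons_of_mem _ h1.1, List.mem_cons_of_mem _ h1.2⟩

/-- the map on arcs -/
def trfM {L M : Type} (h : L → M) (A : Arc L) : Arc M := (A.1, h A.2.1, h A.2.2)

section inter
variable {L : Type} [LinearOrder L] (F : Finset L) (h : L → ℝ)
  (hF : ∀ a ∈ F, ∀ b ∈ F, a < b → h a < h b)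

include hF

theorem trf_lt (a b : L) (ha : a ∈ F) (hb : b ∈ F) : h a < h b ↔ a < b := by
  constructor
  · intro hab
    rcases lt_trichotomy a b with h1 | h1 | h1
    · exact h1
    · rw [h1] at hab
      exact absurd hab (lt_irrefl _)
    · exact absurd (hF b hb a ha h1) (not_lt.2 hab.le)
  · exact hF a ha b hb

theorem trf_inj (a b : L) (ha : a ∈ F) (hb : b ∈ F) (hab : h a = h b) : a = b := by
  rcases lt_trichotomy a b with h1 | h1 | h1
  · exact absurd (hF a ha b hb h1) (by rw [hab]; exact lt_irrefl _)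
  · exact h1
  · exact absurd (hF b hb a ha h1) (by rw [hab]; exact lt_irrefl _)

theorem trf_inter (a b c d : L) (ha : a ∈ F) (hb : b ∈ F) (hc : c ∈ F) (hd : d ∈ F) :
    Inter (h a) (h b) (h c) (h d) ↔ Inter a b c d := by
  have k : ∀ x ∈ F, ∀ y ∈ F, (h x < h y ↔ x < y) := fun x hx y hy => trf_lt F h hF x y hx hy
  unfold Inter Btw Out
  rw [k a ha c hc, k a ha d hd, k b hb c hc, k b hb d hd, k c hc a ha, k c hc b hb,
    k d hd a ha, k d hd b hb]

theorem trf_cross (A B : Arc L) (hA : A.2.1 ∈ F ∧ A.2.2 ∈ F) (hB : B.2.1 ∈ F ∧ B.2.2 ∈ F) :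
    Cross (trfM h A) (trfM h B) ↔ Cross A B := by
  unfold Cross trfM
  simp only
  rw [trf_inter F h hF _ _ _ _ hA.1 hA.2 hB.1 hB.2]

theorem trf_M_inj (A B : Arc L) (hA : A.2.1 ∈ F ∧ A.2.2 ∈ F) (hB : B.2.1 ∈ F ∧ B.2.2 ∈ F)
    (hAB : trfM h A = trfM h B) : A = B := by
  obtain ⟨s, a, b⟩ := A
  obtain ⟨t, c, d⟩ := B
  unfold trfM at hAB
  simp only [Prod.mk.injEq] at hAB ⊢
  exact ⟨hAB.1, trf_inj F h hF _ _ hA.1 hB.1 hAB.2.1, trf_inj F h hF _ _ hA.2 hB.2 hAB.2.2⟩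

theorem trf_nc (α β : List (Arc L)) (hα : ∀ A ∈ α, A.2.1 ∈ F ∧ A.2.2 ∈ F)
    (hβ : ∀ A ∈ β, A.2.1 ∈ F ∧ A.2.2 ∈ F) (hN : NC α β) :
    NC (α.map (trfM h)) (β.map (trfM h)) := by
  intro A hA B hB hC
  obtain ⟨A, hA', rfl⟩ := List.mem_map.1 hA
  obtain ⟨B, hB', rfl⟩ := List.mem_map.1 hB
  exact hN A hA' B hB' ((trf_cross F h hF A B (hα A hA') (hβ B hB')).1 hC)

theorem trf_am (α β : List (Arc L)) (hα : ∀ A ∈ α, A.2.1 ∈ F ∧ A.2.2 ∈ F)
    (hβ : ∀ A ∈ β, A.2.1 ∈ F ∧ A.2.2 ∈ F) (hN : AM α β) :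
    AM (α.map (trfM h)) (β.map (trfM h)) := by
  intro A hA B hB A2 hA2 B2 hB2 hC hC2
  obtain ⟨A, hA', rfl⟩ := List.mem_map.1 hA
  obtain ⟨B, hB', rfl⟩ := List.mem_map.1 hB
  obtain ⟨A2, hA2', rfl⟩ := List.mem_map.1 hA2
  obtain ⟨B2, hB2', rfl⟩ := List.mem_map.1 hB2
  have h1 := hN A hA' B hB' A2 hA2' B2 hB2'
    ((trf_cross F h hF A B (hα A hA') (hβ B hB')).1 hC)
    ((trf_cross F h hF A2 B2 (hα A2 hA2') (hβ B2 hB2')).1 hC2)
  rw [h1.1, h1.2]
  exact ⟨rfl, rfl⟩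

theorem trf_ex (α β : List (Arc L)) (hα : ∀ A ∈ α, A.2.1 ∈ F ∧ A.2.2 ∈ F)
    (hβ : ∀ A ∈ β, A.2.1 ∈ F ∧ A.2.2 ∈ F) (hN : EX α β) :
    EX (α.map (trfM h)) (β.map (trfM h)) := by
  obtain ⟨A, hA, B, hB, hC⟩ := hN
  exact ⟨trfM h A, List.mem_map_of_mem hA, trfM h B, List.mem_map_of_mem hB,
    (trf_cross F h hF A B (hα A hA) (hβ B hB)).2 hC⟩

end inter

theorem trf_thm (hGEN : GEN_S) (hARM : ARM_S) : TRF_S := by
  classical
  intro L _ n D T hG hT
  obtain ⟨F, hFdef⟩ : ∃ F : Finset L, ∀ c, c ∈ F ↔ Pt n D c := by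
    have hfin : {c : L | Pt n D c}.Finite := by
      have h1 : {c : L | ∃ x < n, c = D.pos x}.Finite := by
        refine ((Finset.range n).image D.pos).finite_toSet.subset ?_
        rintro c ⟨x, hx, rfl⟩
        simp only [Finset.coe_image, Finset.coe_range]
        exact ⟨x, hx, rfl⟩
      have h2 : {c : L | ∃ x < n, ∃ y < n, x ≠ y ∧ c ∈ D.E x y}.Finite := by
        refine ((Finset.range n ×ˢ Finset.range n).biUnion
          (fun q => (D.E q.1 q.2).toFinset)).finite_toSet.subset ?_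
        rintro c ⟨x, hx, y, hy, -, hc⟩
        rw [Finset.mem_coe, Finset.mem_biUnion]
        exact ⟨(x, y), by simp [hx, hy], by simpa using hc⟩
      exact (h1.union h2).subset fun c hc => hc
    exact ⟨hfin.toFinset, fun c => by rw [Set.Finite.mem_toFinset]; exact Iff.rfl⟩
  obtain ⟨g, hg, hgen⟩ := hGEN F.card
  obtain ⟨h, hh⟩ : ∃ h : L → ℝ, ∀ c, h c = g ((F.filter (fun a => a < c)).card) :=
    ⟨_, fun _ => rfl⟩
  have hF : ∀ a ∈ F, ∀ b ∈ F, a < b → h a < h b := by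
    intro a ha b hb hab
    rw [hh, hh]
    apply hg
    apply Finset.card_lt_card
    rw [Finset.ssubset_iff_of_subset]
    · refine ⟨a, by simp [ha, hab], by simp⟩
    · intro c hc
      rw [Finset.mem_filter] at hc ⊢
      exact ⟨hc.1, hc.2.trans hab⟩
  have hrk : ∀ a ∈ F, ∃ i < F.card, h a = g i := by
    intro a ha
    refine ⟨_, ?_, hh a⟩
    apply Finset.card_lt_card
    rw [Finset.ssubset_iff_of_subset (Finset.filter_subset _ _)]
    exact ⟨a, ha, by simp⟩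
  have hpos : ∀ x < n, D.pos x ∈ F := fun x hx => (hFdef _).2 (Or.inl ⟨x, hx, rfl⟩)
  have hE : ∀ x < n, ∀ y < n, x ≠ y → ∀ c ∈ D.E x y, c ∈ F := fun x hx y hy hxy c hc =>
    (hFdef _).2 (Or.inr ⟨x, hx, y, hy, hxy, hc⟩)
  have hP : ∀ x < n, ∀ y < n, x ≠ y → ∀ c ∈ D.P x y, c ∈ F := by
    intro x hx y hy hxy c hc
    unfold Diag.P at hc
    rw [List.mem_cons, List.mem_append, List.mem_singleton] at hc
    rcases hc with rfl | hc | rfl
    · exact hpos x hx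
    · exact hE x hx y hy hxy c hc
    · exact hpos y hy
  have hA : ∀ x < n, ∀ y < n, x ≠ y → ∀ A ∈ D.A x y, A.2.1 ∈ F ∧ A.2.2 ∈ F := by
    rintro x hx y hy hxy ⟨s, a, b⟩ hA
    have h1 := trf_arcs_mem _ _ _ _ _ hA
    exact ⟨hP x hx y hy hxy a h1.1, hP x hx y hy hxy b h1.2⟩
  have hmapA : ∀ x y, (D.map h).A x y = (D.A x y).map (trfM h) := by
    intro x y
    have h1 : (D.map h).P x y = (D.P x y).map h := by
      unfold Diag.P Diag.map
      simp
    unfold Diag.A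
    rw [h1]
    exact (hARM L ℝ h (D.P x y) (D.S x y)).1
  refine ⟨D.map h, ?_, ?_, ?_⟩
  · refine ⟨?_, ?_, ?_, ?_, ?_, ?_, ?_, ?_, ?_⟩
    · intro x hx y hy hxy
      exact hG.pos_inj x hx y hy (trf_inj F h hF _ _ (hpos x hx) (hpos y hy) hxy)
    · intro x hx y hy z hz hxy hmem
      obtain ⟨c, hc, hce⟩ := List.mem_map.1 hmem
      have h1 := trf_inj F h hF _ _ (hE x hx y hy hxy c hc) (hpos z hz) hce
      rw [h1] at hc
      exact hG.notin x hx y hy z hz hxy hc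
    · intro x hx y hy hxy
      refine List.Nodup.map_on ?_ (hG.nodup x hx y hy hxy)
      intro a ha b hb hab
      exact trf_inj F h hF _ _ (hE x hx y hy hxy a ha) (hE x hx y hy hxy b hb) hab
    · intro x hx y hy z hz t ht hxy hzt c hc1 hc2
      obtain ⟨c1, hm1, rfl⟩ := List.mem_map.1 hc1
      obtain ⟨c2, hm2, hce⟩ := List.mem_map.1 hc2
      have h1 := trf_inj F h hF _ _ (hE z hz t ht hzt c2 hm2) (hE x hx y hy hxy c1 hm1) hce
      rw [h1] at hm2
      exact hG.disj x hx y hy z hz t ht hxy hzt c1 hm1 hm2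
    · intro x hx y hy hxy c hc
      obtain ⟨c1, hc1, rfl⟩ := List.mem_map.1 hc
      exact List.mem_map_of_mem (hG.symE x hx y hy hxy c1 hc1)
    · intro x hx y hy hxy s a b hab
      rw [hmapA] at hab ⊢
      obtain ⟨⟨s1, a1, b1⟩, h1, h2⟩ := List.mem_map.1 hab
      unfold trfM at h2
      simp only [Prod.mk.injEq] at h2
      obtain ⟨rfl, rfl, rfl⟩ := h2
      exact List.mem_map_of_mem (hG.symA x hx y hy hxy s1 a1 b1 h1)
    · intro x hx y hy z hz hxy hxz hyz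
      rw [hmapA, hmapA]
      exact trf_nc F h hF _ _ (hA x hx y hy hxy) (hA x hx z hz hxz)
        (hG.adj x hx y hy z hz hxy hxz hyz)
    · intro x hx y hy hxy
      rw [hmapA]
      exact trf_nc F h hF _ _ (hA x hx y hy hxy) (hA x hx y hy hxy) (hG.self x hx y hy hxy)
    · intro x hx y hy z hz t ht hxy hzt h1 h2 h3 h4
      rw [hmapA, hmapA]
      exact trf_am F h hF _ _ (hA x hx y hy hxy) (hA z hz t ht hzt)
        (hG.two x hx y hy z hz t ht hxy hzt h1 h2 h3 h4)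
  · intro x hx y hy z hz t ht hxy hzt h1 h2 h3 h4 hT1 hT2
    rw [hmapA, hmapA]
    exact trf_ex F h hF _ _ (hA x hx y hy hxy) (hA z hz t ht hzt)
      (hT x hx y hy z hz t ht hxy hzt h1 h2 h3 h4 hT1 hT2)
  · have hPt : ∀ c, Pt n (D.map h) c → ∃ i < F.card, c = g i := by
      rintro c (⟨x, hx, rfl⟩ | ⟨x, hx, y, hy, hxy, hc⟩)
      · exact hrk _ (hpos x hx)
      · obtain ⟨c1, hc1, rfl⟩ := List.mem_map.1 hc
        exact hrk _ (hE x hx y hy hxy c1 hc1)
    intro a b c d e f ha hb hc hd he hf hn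
    exact hgen a b c d e f (hPt a ha) (hPt b hb) (hPt c hc) (hPt d hd) (hPt e he) (hPt f hf) hn

end Pool.MCR
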