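import Pool.Agent.H88.MCR.Stmts2

/-!
Row MAU (MP_ffb5eb_co): graphs with one cycle (copy of row MAI by helper25).
-/

set_option autoImplicit false

namespace Pool.MCR

theorem mau_thm (hCYC : CYC_S) (hARR : ARR_S) (hRNK : RNK_S) (hCGD : CGD_S) (hCTH : CTH_S) :
    MAU_S := by
  intro m p hm3 hm4 hp n hn
  induction n, hn using Nat.le_induction with
  | base =>
    obtain ⟨L, hL, D, hD, hT⟩ := hCYC m hm3 hm4
    refine ⟨L, hL, D, hD, ?_⟩
    have hsub : ∀ x < m, ∀ y, uniT m p x y → cycT m x y := by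
      intro x hx y h
      rcases h with h | h
      · exact h
      · exact absurd h.1 (not_le.2 hx)
    intro x hx y hy z hz t ht h1 h2 h3 h4 h5 h6 h7 h8
    exact hT x hx y hy z hz t ht h1 h2 h3 h4 h5 h6
      (h7.imp (fun h => hsub x hx y h) (fun h => hsub y hy x h))
      (h8.imp (fun h => hsub z hz t h) (fun h => hsub t ht z h))
  | succ n hmn ih =>
    obtain ⟨L, hL, D, hD, hT⟩ := ih
    have hu : p n < n := hp n (by omega)
    obtain ⟨w, hw, hwu, hwT⟩ : ∃ w < n, p n ≠ w ∧ uniT m p (p n) w := by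
      by_cases h0 : p n + 1 < m
      · exact ⟨p n + 1, by omega, by omega, Or.inl (Or.inl ⟨rfl, h0⟩)⟩
      · by_cases h1 : p n + 1 = m
        · exact ⟨0, by omega, by omega, Or.inl (Or.inr ⟨h1, rfl, hm3⟩)⟩
        · have h2 := hp (p n) (by omega)
          exact ⟨p (p n), by omega, by omega, Or.inr ⟨by omega, by omega, rfl⟩⟩
    let T' : ℕ → ℕ → Prop := fun x y => uniT m p x y ∧ x < n ∧ y < n
    have hT' : Thr T' n D := by
      intro x hx y hy z hz t ht h1 h2 h3 h4 h5 h6 h7 h8
      exact hT x hx y hy z hz t ht h1 h2 h3 h4 h5 h6 (h7.imp (fun h => h.1) (fun h => h.1))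
        (h8.imp (fun h => h.1) (fun h => h.1))
    obtain ⟨L', hL', D', hD', hT2, hF⟩ := hARR L n D T' w (p n) hD hT' hw hu hwu
    obtain ⟨r, hr⟩ := hRNK L' n D' w hD' hw
    have h9 : T' w (p n) ∨ T' (p n) w := Or.inr ⟨hwT, hu, hw⟩
    have h10 := hCTH L' n D' w (p n) r T' (fun x y h => h.2) hD' hT2 hw hu hwu h9 hr hF
    refine ⟨L' ×ₗ ℤ, inferInstance, clone D' n w r, hCGD L' n D' w r hD' hw hr, ?_⟩
    have hsub : ∀ x < n + 1, ∀ y, uniT m p x y → addE T' n (p n) x y := by
      intro x hx y h
      by_cases hxn : x = n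
      · right
        refine ⟨hxn, ?_⟩
        rcases h with (h | h) | h
        · have h1 := h.1
          have h2 := h.2
          omega
        · have h1 := h.1
          omega
        · rw [h.2.2, hxn]
      · left
        refine ⟨h, by omega, ?_⟩
        rcases h with (h | h) | h
        · have h2 := h.2
          omega
        · have h2 := h.2.1
          omega
        · have h11 := hp x h.2.1
          have h12 := h.2.2
          omega
    intro x hx y hy z hz t ht h1 h2 h3 h4 h5 h6 h7 h8
    exact h10 x hx y hy z hz t ht h1 h2 h3 h4 h5 h6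
      (h7.imp (fun h => hsub x hx y h) (fun h => hsub y hy x h))
      (h8.imp (fun h => hsub z hz t h) (fun h => hsub t ht z h))

end Pool.MCR
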